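import Pool.Agent.Lib.MP_d77547_co.RSK
import Pool.Agent.Lib.MP_d77547_co.Count

set_option autoImplicit false

open scoped List

namespace Pool.Agent.Results.MP_d77547_co.JackOneRow

open Pool.Agent.Lib.MP_d77547_co Equiv

/-- The word `f_β(π)` in one-line form with letters `1, …, n`; the element `x` of `Fin n` stands
for the number `x + 1`. -/
def fWord {n : ℕ} (β : Finpartition (Finset.univ : Finset (Fin n))) (π : Perm (Fin n)) : List ℕ :=
  List.ofFn (fun p => (fBeta β π p : ℕ) + 1)

/-- The fundamental quasisymmetric function `F_S` in the variables `x_0, x_1, x_2, …`: the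
coefficient of a monomial `x^e` is the number of sequences `i_1 ≤ i_2 ≤ … ≤ i_n` with
`i_j < i_{j+1}` whenever `j ∈ S` and `x_{i_1} ⋯ x_{i_n} = x^e`. (The position `j` is the element
`j - 1` of `Fin n`.) -/
noncomputable def fundQS (n : ℕ) (S : Set ℕ) : MvPowerSeries ℕ (Polynomial ℚ) := fun e =>
  (Nat.card {i : Fin n → ℕ //
    (∀ a b : Fin n, a.val + 1 = b.val → i a ≤ i b ∧ (b.val ∈ S → i a < i b)) ∧
      ∑ j, Finsupp.single (i j) 1 = e} : Polynomial ℚ)

/-- The monomial symmetric function `m_λ` in the variables `x_0, x_1, x_2, …`: the sum of all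
monomials whose multiset of nonzero exponents is the multiset of parts of `λ`. -/
noncomputable def monoSym {n : ℕ} (lam : n.Partition) : MvPowerSeries ℕ (Polynomial ℚ) := fun e =>
  if e.support.val.map e = lam.parts then 1 else 0

/-- The normalised one-row Jack polynomial
`∑_{λ ⊢ n} (n! / λ!) ∏_{s ∈ λ} (α + arm(s)) m_λ`, where `α` is the variable of `ℚ[X]`; a row with
`k` cells contributes the cells in columns `j = 0, …, k - 1`, and the cell in column `j` has
`k - 1 - j` cells to its right. -/
noncomputable def jackTilde (n : ℕ) : MvPowerSeries ℕ (Polynomial ℚ) :=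
  ∑ lam : n.Partition,
    (Polynomial.C ((n.factorial : ℚ) / ((lam.parts.map Nat.factorial).prod : ℚ)) *
      (lam.parts.map fun k =>
        ∏ j ∈ Finset.range k, (Polynomial.X + Polynomial.C ((k - 1 - j : ℕ) : ℚ))).prod) •
      monoSym lam

section content

theorem toMultiset_content {n : ℕ} (s : Fin n → ℕ) :
    Finsupp.toMultiset (∑ j, Finsupp.single (s j) 1) = (List.ofFn s : Multiset ℕ) := by
  rw [map_sum]
  simp only [Finsupp.toMultiset_single, one_smul]
  rw [← Fin.univ_val_map]
  have h := Multiset.sum_map_singleton (Finset.univ.val.map s)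
  rw [Multiset.map_map] at h
  exact h

/-- A monotone sequence is determined by its content. -/
theorem eq_of_content {n : ℕ} {s t : Fin n → ℕ} (hs : Monotone s) (ht : Monotone t)
    (h : ∑ j, Finsupp.single (s j) 1 = ∑ j, Finsupp.single (t j) 1) : s = t := by
  have h1 := congrArg Finsupp.toMultiset h
  rw [toMultiset_content, toMultiset_content, Multiset.coe_eq_coe] at h1
  have h2 := h1.eq_of_pairwise' (r := (· ≤ ·)) hs.sortedLE_ofFn.pairwise
    ht.sortedLE_ofFn.pairwise
  exact List.ofFn_injective h2

/-- Every monomial of degree `n` is the content of a monotone sequence. -/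
theorem exists_content {n : ℕ} (e : ℕ →₀ ℕ) (he : ∑ v ∈ e.support, e v = n) :
    ∃ s : Fin n → ℕ, Monotone s ∧ ∑ j, Finsupp.single (s j) 1 = e := by
  set M := Finsupp.toMultiset e with hM
  have hcard : M.card = n := by
    rw [hM, Finsupp.card_toMultiset, ← he]; rfl
  have hlen : (M.sort (fun a b => a ≤ b)).length = n := by rw [Multiset.length_sort, hcard]
  have hgen : ∀ (l : List ℕ) (h : n = l.length),
      (List.ofFn fun i : Fin n => l.get (i.cast h)) = l := by
    intro l h
    subst h
    exact List.ofFn_get l
  refine ⟨fun i => (M.sort (fun a b => a ≤ b)).get (i.cast hlen.symm), ?_, ?_⟩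
  · intro i j hij
    have h1 : (M.sort (fun a b => a ≤ b)).SortedLE :=
      (Multiset.pairwise_sort M (· ≤ ·)).sortedLE
    exact h1.monotone_get (by exact_mod_cast hij)
  · have h1 : Finsupp.toMultiset (∑ j : Fin n, Finsupp.single
        ((M.sort (fun a b => a ≤ b)).get (j.cast hlen.symm)) 1) = Finsupp.toMultiset e := by
      rw [toMultiset_content (fun i : Fin n => (M.sort (fun a b => a ≤ b)).get (i.cast hlen.symm)),
        hgen _ hlen.symm, Multiset.sort_eq]
    exact Multiset.toFinsupp.symm.injective h1

theorem content_apply {n : ℕ} (s : Fin n → ℕ) (v : ℕ) :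
    (∑ j, Finsupp.single (s j) 1 : ℕ →₀ ℕ) v = (Finset.univ.filter (fun i => s i = v)).card := by
  rw [Finsupp.finsetSum_apply, Finset.card_filter]
  refine Finset.sum_congr rfl fun j _ => ?_
  rw [Finsupp.single_apply]

theorem content_support {n : ℕ} (s : Fin n → ℕ) :
    (∑ j, Finsupp.single (s j) 1 : ℕ →₀ ℕ).support = Finset.univ.image s := by
  ext v
  rw [Finsupp.mem_support_iff, content_apply, Finset.mem_image]
  rw [Finset.card_ne_zero]
  constructor
  · rintro ⟨i, hi⟩
    exact ⟨i, Finset.mem_univ _, (Finset.mem_filter.mp hi).2⟩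
  · rintro ⟨i, -, hi⟩
    exact ⟨i, Finset.mem_filter.mpr ⟨Finset.mem_univ _, hi⟩⟩

theorem content_degree {n : ℕ} (s : Fin n → ℕ) :
    ∑ v ∈ (∑ j, Finsupp.single (s j) 1 : ℕ →₀ ℕ).support,
      (∑ j, Finsupp.single (s j) 1 : ℕ →₀ ℕ) v = n := by
  have h := Finsupp.card_toMultiset (∑ j, Finsupp.single (s j) 1 : ℕ →₀ ℕ)
  rw [toMultiset_content] at h
  simp only [Multiset.coe_card, List.length_ofFn] at h
  exact h.symm

end content

/-- Adjacent monotonicity. -/
theorem monotone_of_adj {n : ℕ} (i : Fin n → ℕ)
    (h : ∀ a b : Fin n, a.val + 1 = b.val → i a ≤ i b) : Monotone i := by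
  have key : ∀ (k : ℕ) (a b : Fin n), b.val = a.val + k → i a ≤ i b := by
    intro k
    induction k with
    | zero => intro a b hab; rw [Fin.ext (show b.val = a.val by omega)]
    | succ k ih =>
      intro a b hab
      have hb : a.val + k < n := by have := b.isLt; omega
      exact (ih a ⟨a.val + k, hb⟩ rfl).trans (h _ _ (by simp only; omega))
  intro a b hab
  exact key (b.val - a.val) a b (by have : a.val ≤ b.val := hab; omega)

open Classical in
/-- The coefficient of `F_S` at the content of a monotone sequence `s`. -/
theorem fundQS_content {n : ℕ} (S : Set ℕ) (s : Fin n → ℕ) (hs : Monotone s) :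
    fundQS n S (∑ j, Finsupp.single (s j) 1) =
      if (∀ a b : Fin n, a.val + 1 = b.val → b.val ∈ S → s a < s b) then 1 else 0 := by
  unfold fundQS
  by_cases hS : ∀ a b : Fin n, a.val + 1 = b.val → b.val ∈ S → s a < s b
  · rw [if_pos hS]
    have : Nat.card {i : Fin n → ℕ //
      (∀ a b : Fin n, a.val + 1 = b.val → i a ≤ i b ∧ (b.val ∈ S → i a < i b)) ∧
        ∑ j, Finsupp.single (i j) 1 = ∑ j, Finsupp.single (s j) 1} = 1 := by
      rw [Nat.card_eq_one_iff_unique]
      refine ⟨⟨?_⟩, ⟨⟨s, fun a b hab => ⟨hs ?_, hS a b hab⟩, rfl⟩⟩⟩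
      · rintro ⟨i, hi1, hi2⟩ ⟨j, hj1, hj2⟩
        apply Subtype.ext
        exact eq_of_content (monotone_of_adj i fun a b hab => (hi1 a b hab).1)
          (monotone_of_adj j fun a b hab => (hj1 a b hab).1) (hi2.trans hj2.symm)
      · show a.val ≤ b.val
        omega
    rw [this]; simp
  · rw [if_neg hS]
    have : Nat.card {i : Fin n → ℕ //
      (∀ a b : Fin n, a.val + 1 = b.val → i a ≤ i b ∧ (b.val ∈ S → i a < i b)) ∧
        ∑ j, Finsupp.single (i j) 1 = ∑ j, Finsupp.single (s j) 1} = 0 := by
      rw [Nat.card_eq_zero]
      left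
      refine ⟨?_⟩
      rintro ⟨i, hi1, hi2⟩
      have : i = s := eq_of_content (monotone_of_adj i fun a b hab => (hi1 a b hab).1) hs hi2
      subst this
      exact hS fun a b hab hb => (hi1 a b hab).2 hb
    rw [this]; simp

theorem fundQS_of_degree_ne {n : ℕ} (S : Set ℕ) (e : ℕ →₀ ℕ) (he : ∑ v ∈ e.support, e v ≠ n) :
    fundQS n S e = 0 := by
  unfold fundQS
  have : Nat.card {i : Fin n → ℕ //
      (∀ a b : Fin n, a.val + 1 = b.val → i a ≤ i b ∧ (b.val ∈ S → i a < i b)) ∧
        ∑ j, Finsupp.single (i j) 1 = e} = 0 := by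
    rw [Nat.card_eq_zero]
    left
    refine ⟨?_⟩
    rintro ⟨i, -, hi2⟩
    apply he
    rw [← hi2]
    exact content_degree i
  rw [this]; simp

/-- pairs of letters in a word -/
theorem pair_sublist_iff (l : List ℕ) (x y : ℕ) :
    [x, y] <+ l ↔ ∃ (i j : ℕ) (hi : i < l.length) (hj : j < l.length), i < j ∧ l[i] = x ∧ l[j] = y := by
  have h1 : ¬ ([x, y] <+ l) ↔ l.Pairwise (fun a b => ¬ (a = x ∧ b = y)) := by
    rw [List.pairwise_iff_forall_sublist]
    constructor
    · rintro h a b hab ⟨rfl, rfl⟩
      exact h hab
    · intro h hab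
      exact h hab ⟨rfl, rfl⟩
  rw [← not_iff_not, h1, List.pairwise_iff_getElem]
  push Not
  constructor
  · intro h i j hi hj hij hx hy
    exact h i j hi hj hij hx hy
  · intro h i j hi hj hij hx hy
    exact h i j hi hj hij hx hy

theorem nodup_fWord {n : ℕ} (β : Finpartition (Finset.univ : Finset (Fin n)))
    (π : Perm (Fin n)) : (fWord β π).Nodup := by
  unfold fWord
  rw [List.nodup_ofFn]
  intro a b hab
  apply fBeta_injective β π
  apply Fin.ext
  simpa using hab

/-- The strictness condition at the descents of `P(f_β(π))`. -/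
theorem cond_iff {n : ℕ} (s : Fin n → ℕ) (hs : Monotone s)
    (β : Finpartition (Finset.univ : Finset (Fin n))) (π : Perm (Fin n)) :
    (∀ a b : Fin n, a.val + 1 = b.val → b.val ∈ Des (insertionTableau (fWord β π)) → s a < s b) ↔
      Inc s (fPerm β π).symm := by
  set w := fPerm β π with hw
  have hmem : ∀ a b : Fin n, a.val + 1 = b.val →
      (b.val ∈ Des (insertionTableau (fWord β π)) ↔ w.symm b < w.symm a) := by
    intro a b hab
    rw [mem_Des_insertionTableau _ (nodup_fWord β π), pair_sublist_iff]
    constructor
    · rintro ⟨i, j, hi, hj, hij, h1, h2⟩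
      unfold fWord at h1 h2 hi hj
      rw [List.length_ofFn] at hi hj
      rw [List.getElem_ofFn] at h1 h2
      have e1 : w ⟨i, hi⟩ = b := by
        apply Fin.ext
        have : (fBeta β π ⟨i, hi⟩ : ℕ) = b.val := by omega
        exact this
      have e2 : w ⟨j, hj⟩ = a := by
        apply Fin.ext
        have : (fBeta β π ⟨j, hj⟩ : ℕ) = a.val := by omega
        exact this
      rw [← e1, ← e2, Equiv.symm_apply_apply, Equiv.symm_apply_apply]
      exact hij
    · intro h
      refine ⟨(w.symm b).val, (w.symm a).val, ?_, ?_, h, ?_, ?_⟩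
      · unfold fWord; rw [List.length_ofFn]; exact (w.symm b).isLt
      · unfold fWord; rw [List.length_ofFn]; exact (w.symm a).isLt
      · unfold fWord
        rw [List.getElem_ofFn]
        have : w (w.symm b) = b := Equiv.apply_symm_apply _ _
        have h2 : (fBeta β π (w.symm b) : ℕ) = b.val := congrArg Fin.val this
        show (fBeta β π (w.symm b) : ℕ) + 1 = b.val + 1
        rw [h2]
      · unfold fWord
        rw [List.getElem_ofFn]
        have : w (w.symm a) = a := Equiv.apply_symm_apply _ _
        have h2 : (fBeta β π (w.symm a) : ℕ) = a.val := congrArg Fin.val this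
        show (fBeta β π (w.symm a) : ℕ) + 1 = b.val
        rw [h2, hab]
  constructor
  · intro h
    -- adjacent version
    have hadj : ∀ a b : Fin n, a.val + 1 = b.val → s a = s b → w.symm a < w.symm b := by
      intro a b hab hsab
      by_contra hcon
      have hne : w.symm a ≠ w.symm b := by
        intro e
        have := w.symm.injective e
        rw [this] at hab; omega
      have hlt : w.symm b < w.symm a := lt_of_le_of_ne (not_lt.mp hcon) hne.symm
      have := h a b hab ((hmem a b hab).mpr hlt)
      omega
    have key : ∀ (k : ℕ) (a b : Fin n), b.val = a.val + (k + 1) → s a = s b →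
        w.symm a < w.symm b := by
      intro k
      induction k with
      | zero => intro a b hab hsab; exact hadj a b hab.symm hsab
      | succ k ih =>
        intro a b hab hsab
        have hb : a.val + (k + 1) < n := by have := b.isLt; omega
        set c : Fin n := ⟨a.val + (k + 1), hb⟩ with hc
        have h1 : s a ≤ s c := hs (by show a.val ≤ a.val + (k + 1); omega)
        have h2 : s c ≤ s b := hs (by show a.val + (k + 1) ≤ b.val; omega)
        exact (ih a c rfl (by omega)).trans
          (hadj c b (by show a.val + (k + 1) + 1 = b.val; omega) (by omega))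
    intro a b hab hsab
    have hab' : a.val < b.val := hab
    exact key (b.val - a.val - 1) a b (by omega) hsab
  · intro h a b hab hb
    have hlt := (hmem a b hab).mp hb
    have hab' : a < b := by show a.val < b.val; omega
    rcases eq_or_lt_of_le (hs hab'.le) with h1 | h1
    · exact absurd (h a b hab' h1) (not_lt.mpr hlt.le)
    · exact h1

open Classical in
/-- The polynomial identity behind the theorem. -/
theorem poly_identity {n : ℕ} (s : Fin n → ℕ) (hs : Monotone s) :
    (∑ β : Finpartition (Finset.univ : Finset (Fin n)), ∑ π : Perm (Fin n),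
      descPochhammer ℚ β.parts.card * (if Inc s (fPerm β π).symm then 1 else 0)) =
    Polynomial.C ((n.factorial : ℚ) /
        ((∏ v ∈ Finset.univ.image s, (Finset.univ.filter (fun i => s i = v)).card.factorial : ℕ) : ℚ)) *
      ∏ v ∈ Finset.univ.image s, ∏ j ∈ Finset.range (Finset.univ.filter (fun i => s i = v)).card,
        (Polynomial.X + Polynomial.C
          (((Finset.univ.filter (fun i => s i = v)).card - 1 - j : ℕ) : ℚ)) := by
  apply Polynomial.eq_of_infinite_eval_eq
  apply Set.Infinite.mono _ (Set.infinite_range_of_injective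
    (Nat.cast_injective (R := ℚ)))
  rintro _ ⟨m, rfl⟩
  show Polynomial.eval _ _ = Polynomial.eval _ _
  have hL : Polynomial.eval (m : ℚ)
      (∑ β : Finpartition (Finset.univ : Finset (Fin n)), ∑ π : Perm (Fin n),
        descPochhammer ℚ β.parts.card * (if Inc s (fPerm β π).symm then 1 else 0)) =
      ((n.factorial * Nat.card {h : Fin n → Fin m // WInc s h} : ℕ) : ℚ) := by
    rw [← sum_partitions m s hs]
    rw [Polynomial.eval_finsetSum]
    push_cast
    refine Finset.sum_congr rfl fun β _ => ?_
    rw [Polynomial.eval_finsetSum, Finset.mul_sum]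
    refine Finset.sum_congr rfl fun π _ => ?_
    rw [Polynomial.eval_mul, descPochhammer_eval_eq_descFactorial]
    split_ifs <;> simp
  rw [hL, card_winc, Polynomial.eval_mul, Polynomial.eval_C, Polynomial.eval_prod]
  have hR : ∀ v : ℕ, Polynomial.eval (m : ℚ)
      (∏ j ∈ Finset.range (Finset.univ.filter (fun i => s i = v)).card,
        (Polynomial.X + Polynomial.C
          (((Finset.univ.filter (fun i => s i = v)).card - 1 - j : ℕ) : ℚ))) =
      ((m.multichoose (Finset.univ.filter (fun i => s i = v)).card *
        (Finset.univ.filter (fun i => s i = v)).card.factorial : ℕ) : ℚ) := by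
    intro v
    rw [multichoose_mul_factorial, Polynomial.eval_prod,
      ← Finset.prod_range_reflect (fun j => m + j)]
    push_cast
    refine Finset.prod_congr rfl fun j _ => ?_
    simp
  simp_rw [hR]
  push_cast
  rw [Finset.prod_mul_distrib]
  have hne : (∏ v ∈ Finset.univ.image s,
      ((Finset.univ.filter (fun i => s i = v)).card.factorial : ℚ)) ≠ 0 := by
    rw [Finset.prod_ne_zero_iff]
    intro v _
    exact_mod_cast Nat.factorial_ne_zero _
  field_simp

/-- **Answer to Q1 (positive).** -/
theorem result (n : ℕ) (_hn : 1 ≤ n) :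
    jackTilde n =
      ∑ π : Perm (Fin n), ∑ β : Finpartition (Finset.univ : Finset (Fin n)),
        descPochhammer ℚ β.parts.card • fundQS n (Des (insertionTableau (fWord β π))) := by
  classical
  ext1 e
  rw [Finset.sum_comm]
  have hR : MvPowerSeries.coeff e
      (∑ β : Finpartition (Finset.univ : Finset (Fin n)), ∑ π : Perm (Fin n),
        descPochhammer ℚ β.parts.card • fundQS n (Des (insertionTableau (fWord β π)))) =
      ∑ β : Finpartition (Finset.univ : Finset (Fin n)), ∑ π : Perm (Fin n),
        descPochhammer ℚ β.parts.card * fundQS n (Des (insertionTableau (fWord β π))) e := by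
    rw [map_sum]
    refine Finset.sum_congr rfl fun β _ => ?_
    rw [map_sum]
    rfl
  have hL : MvPowerSeries.coeff e (jackTilde n) = ∑ lam : n.Partition,
      (Polynomial.C ((n.factorial : ℚ) / ((lam.parts.map Nat.factorial).prod : ℚ)) *
      (lam.parts.map fun k =>
        ∏ j ∈ Finset.range k, (Polynomial.X + Polynomial.C ((k - 1 - j : ℕ) : ℚ))).prod) *
      (if e.support.val.map e = lam.parts then 1 else 0) := by
    unfold jackTilde
    rw [map_sum]
    rfl
  rw [hL, hR]
  by_cases he : ∑ v ∈ e.support, e v = n
  · obtain ⟨s, hs, rfl⟩ := exists_content e he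
    have h1 : ∀ (β : Finpartition (Finset.univ : Finset (Fin n))) (π : Perm (Fin n)),
        fundQS n (Des (insertionTableau (fWord β π))) (∑ j, Finsupp.single (s j) 1) =
        if Inc s (fPerm β π).symm then 1 else 0 := by
      intro β π
      rw [fundQS_content _ s hs]
      simp only [cond_iff s hs β π]
    simp_rw [h1]
    rw [poly_identity s hs]
    -- the partition given by the content
    set E : ℕ →₀ ℕ := ∑ j, Finsupp.single (s j) 1 with hE
    let lam : n.Partition :=
      { parts := E.support.val.map E
        parts_pos := by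
          intro i hi
          rw [Multiset.mem_map] at hi
          obtain ⟨v, hv, rfl⟩ := hi
          exact Nat.pos_of_ne_zero (Finsupp.mem_support_iff.mp hv)
        parts_sum := content_degree s }
    rw [Finset.sum_eq_single lam]
    · rw [if_pos rfl, mul_one]
      have hsup : E.support = Finset.univ.image s := content_support s
      have hval : ∀ v, E v = (Finset.univ.filter (fun i => s i = v)).card := content_apply s
      congr 1
      · congr 2
        show (((E.support.val.map E).map Nat.factorial).prod : ℚ) = _
        rw [Multiset.map_map]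
        have : ((E.support.val.map (Nat.factorial ∘ E)).prod) =
            ∏ v ∈ E.support, (E v).factorial := rfl
        rw [this, hsup]
        simp_rw [hval]
      · show ((E.support.val.map E).map _).prod = _
        rw [Multiset.map_map]
        have : (E.support.val.map ((fun k => ∏ j ∈ Finset.range k,
            (Polynomial.X + Polynomial.C ((k - 1 - j : ℕ) : ℚ))) ∘ E)).prod =
            ∏ v ∈ E.support, ∏ j ∈ Finset.range (E v),
              (Polynomial.X + Polynomial.C ((E v - 1 - j : ℕ) : ℚ)) := rfl
        rw [this, hsup]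
        simp_rw [hval]
    · intro mu _ hne
      rw [if_neg, mul_zero]
      intro h
      apply hne
      apply Nat.Partition.ext
      exact h.symm
    · intro h; exact absurd (Finset.mem_univ _) h
  · have h1 : ∀ (β : Finpartition (Finset.univ : Finset (Fin n))) (π : Perm (Fin n)),
        fundQS n (Des (insertionTableau (fWord β π))) e = 0 :=
      fun β π => fundQS_of_degree_ne _ e he
    simp_rw [h1, mul_zero, Finset.sum_const_zero]
    refine Finset.sum_eq_zero fun lam _ => ?_
    rw [if_neg, mul_zero]
    intro h
    apply he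
    rw [← lam.parts_sum, ← h]
    rfl

end Pool.Agent.Results.MP_d77547_co.JackOneRow
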